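import Pool.Agent.J6H27.AD.YY
import Pool.Agent.N980.TL.Sep2
import Pool.Agent.N980.TL.UU
import Pool.Agent.N980.TL.FN

/-!
# Leaf SEP5: the uncorrected paths are separated
-/

set_option autoImplicit false

open Set Filter Topology

namespace Pool.Agent.J6H27.AD

open Pool.Agent.N980.TL Pool.Agent.J6H70.AD

lemma kap_le (hf : S_FN) : 0 ≤ kap ∧ kap ≤ 1 := by
  obtain ⟨-, -, -, -, -, -, -, -, -, h, -⟩ := hf
  exact h

lemma th_bd (hf : S_FN) {s : ℝ} (h0 : -1 ≤ s) (h1 : s ≤ 1) :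
    0 ≤ th s ∧ th s ≤ 1 ∧ kap + s - th s ≤ 1 := by
  have hk := kap_le hf
  have h2 : th (-1) = 0 := by
    obtain ⟨-, -, -, -, -, -, -, h, -⟩ := hf
    exact (h (-1) (by norm_num)).1
  have h3 := th_mono hf h0
  have h4 := th_mono hf h1
  have h5 := sub_th_mono hf h1
  have h6 : s - th s ≤ 1 - th 1 := h5
  have h7 : kap = th 1 := rfl
  refine ⟨by rw [← h2]; exact h3, by linarith, by linarith⟩

/-- the slow coordinate: consecutive positions -/
lemma slow_step5 (hf : S_FN) {P U A : ℕ → ℝ} (hU : ∀ j, U (j + 1) = U j + A j)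
    (hP : ∀ j, P (j + 1) = P j + U j + kap * A j) (hA : ∀ j, A j ≤ 0) {s : ℝ} (h0 : -1 ≤ s)
    (h1 : s ≤ 1) (j : ℕ) :
    U (j + 2) ≤ (P (j + 1) + s * U (j + 1) + th s * A (j + 1)) - (P j + s * U j + th s * A j) := by
  have e1 : U (j + 2) = U j + A j + A (j + 1) := by rw [hU (j + 1), hU j]
  obtain ⟨a1, a2, a3⟩ := th_bd hf h0 h1
  rw [e1, hP j, hU j]
  have b1 := mul_nonneg (sub_nonneg.2 a3) (neg_nonneg.2 (hA j))
  have b2 := mul_nonneg (sub_nonneg.2 a2) (neg_nonneg.2 (hA (j + 1)))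
  nlinarith

lemma slow_sep5 (hf : S_FN) {P U A : ℕ → ℝ} (hU : ∀ j, U (j + 1) = U j + A j)
    (hP : ∀ j, P (j + 1) = P j + U j + kap * A j) (hA : ∀ j, A j ≤ 0)
    {s : ℝ} (h0 : -1 ≤ s) (h1 : s ≤ 1) (i g : ℕ) :
    g * U (i + g + 1) ≤ (P (i + g) + s * U (i + g) + th s * A (i + g)) -
      (P i + s * U i + th s * A i) := by
  have hanti : Antitone U := antitone_nat_of_succ_le fun j => by rw [hU]; linarith [hA j]
  induction g with
  | zero => simp
  | succ g ih =>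
    have h2 := slow_step5 hf hU hP hA h0 h1 (i + g)
    have h3 : U (i + (g + 1) + 1) ≤ U (i + g + 1) := hanti (by omega)
    have h4 : (g : ℝ) * U (i + (g + 1) + 1) ≤ g * U (i + g + 1) :=
      mul_le_mul_of_nonneg_left h3 (by positivity)
    have e : i + (g + 1) = i + g + 1 := by ring
    have e2 : i + (g + 1) + 1 = i + g + 2 := by ring
    rw [e2] at h4 ⊢
    rw [e]
    push_cast
    linarith

/-- the fast coordinate -/
lemma fast_sep5 (hf : S_FN) {P U A : ℕ → ℝ} (hU : ∀ j, U (j + 1) = U j + A j)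
    (hP : ∀ j, P (j + 1) = P j + U j + kap * A j) {D : ℝ} {i : ℕ}
    (hA : ∀ j, i ≤ j → 0 ≤ A j ∧ A j ≤ D) {s : ℝ} (h0 : -1 ≤ s) (h1 : s ≤ 1) (g : ℕ) :
    (0 ≤ U (i + g) - U i ∧ U (i + g) - U i ≤ g * D) ∧
    |(P (i + g) + s * U (i + g) + th s * A (i + g)) - (P i + s * U i + th s * A i) - g * U i| ≤
      ((g : ℝ) + 1) ^ 2 * D := by
  have hk := kap_le hf
  have hD : 0 ≤ D := (hA i le_rfl).1.trans (hA i le_rfl).2
  obtain ⟨a2, a1, -⟩ := th_bd hf h0 h1
  have key : (0 ≤ U (i + g) - U i ∧ U (i + g) - U i ≤ g * D) ∧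
      (0 ≤ P (i + g) - P i - g * U i ∧ P (i + g) - P i - g * U i ≤ g * (g + 1) * D) := by
    induction g with
    | zero => simp
    | succ g ih =>
      obtain ⟨⟨i1, i2⟩, i3, i4⟩ := ih
      obtain ⟨c1, c2⟩ := hA (i + g) (by omega)
      have e : i + (g + 1) = i + g + 1 := by ring
      rw [e, hU, hP]
      push_cast
      have m1 : 0 ≤ kap * A (i + g) := mul_nonneg hk.1 c1
      have m2 : kap * A (i + g) ≤ D := (mul_le_of_le_one_left c1 hk.2).trans c2
      refine ⟨⟨by linarith, by linarith⟩, by linarith, ?_⟩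
      have : ((g : ℝ) + 1) * (g + 1 + 1) * D = g * (g + 1) * D + g * D + (g + 2) * D := by ring
      have h5 : 0 ≤ (g : ℝ) * D := by positivity
      nlinarith
  refine ⟨key.1, ?_⟩
  obtain ⟨⟨k1, k2⟩, k3, k4⟩ := key
  obtain ⟨c1, c2⟩ := hA (i + g) (by omega)
  obtain ⟨c3, c4⟩ := hA i le_rfl
  have e : (P (i + g) + s * U (i + g) + th s * A (i + g)) - (P i + s * U i + th s * A i) - g * U i =
      (P (i + g) - P i - g * U i) + s * (U (i + g) - U i) + th s * A (i + g) - th s * A i := by ring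
  rw [e]
  have m1 : -(g * D) ≤ s * (U (i + g) - U i) := by nlinarith
  have m2 : s * (U (i + g) - U i) ≤ g * D := by nlinarith
  have m3 : 0 ≤ th s * A (i + g) := mul_nonneg a2 c1
  have m4 : th s * A (i + g) ≤ D := (mul_le_of_le_one_left c1 a1).trans c2
  have m5 : 0 ≤ th s * A i := mul_nonneg a2 c3
  have m6 : th s * A i ≤ D := (mul_le_of_le_one_left c3 a1).trans c4
  have h5 : 0 ≤ (g : ℝ) * D := by positivity
  have h6 : 0 ≤ (g : ℝ) * (g + 1) * D := by positivity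
  rw [abs_le]
  constructor <;> nlinarith

lemma rd_nonneg {c2 : ℝ} (h : 0 ≤ c2) (l : ℕ) (V : ℝ) : 0 ≤ rd c2 l V := by
  unfold rd ww
  have := yy_pos l
  split_ifs <;> positivity

lemma ww_two_le (l : ℕ) : ww (1 / 32) (l + 2) ≤ 1 / yy l ^ 43 := by
  have h0 := yy_pos l
  have h1 : (1 : ℝ) ≤ yy l := one_le_yy l
  have h2 : yy l ^ 43 ≤ 2 ^ l := by
    rw [← yy_pow]
    exact pow_le_pow_right₀ h1 (by norm_num)
  unfold ww
  rw [div_le_div_iff₀ (by positivity) (by positivity)]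
  have h3 : (2 : ℝ) ^ (l + 2) = 4 * 2 ^ l := by ring
  have h4 : (1 : ℝ) ≤ (((l + 2 : ℕ) : ℝ) + 1) ^ 2 := by
    apply one_le_pow₀
    have : (0 : ℝ) ≤ ((l + 2 : ℕ) : ℝ) := by positivity
    linarith
  have h5 : (0 : ℝ) < 2 ^ l := by positivity
  rw [h3]
  nlinarith [mul_le_mul_of_nonneg_left h4 h5.le]

lemma rd_le {c2 : ℝ} (h : 0 ≤ c2) (l : ℕ) (V : ℝ) : rd c2 l V ≤ c2 * (1 / yy l ^ 43) := by
  unfold rd
  refine mul_le_mul_of_nonneg_left ?_ h
  split_ifs
  · exact le_rfl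
  · exact ww_two_le l

lemma rd_bad {c2 : ℝ} {l : ℕ} {V : ℝ} (h : ¬ GoodV l V) : rd c2 l V = c2 * ww (1 / 32) (l + 2) := by
  unfold rd
  rw [if_neg h]

/-- the numerical facts for a large scale -/
structure Num (B0 : ℝ) (l : ℕ) : Prop where
  y128 : 128 ≤ yy l
  big : 1024 * B0 * ((l : ℝ) + 4) ^ 2 < yy l ^ 2

lemma num_large {B0 : ℝ} (hB : 1 ≤ B0) : ∃ L : ℕ, ∀ l, L ≤ l → Num B0 l := by
  obtain ⟨L, hL⟩ := yy_large (1024 * B0)
  refine ⟨L, fun l hl => ?_⟩
  have h1 := hL l hl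
  refine ⟨?_, h1⟩
  have h2 : (0 : ℝ) ≤ l := Nat.cast_nonneg l
  have h3 : (16 : ℝ) ≤ ((l : ℝ) + 4) ^ 2 := by nlinarith
  have h4 : (128 : ℝ) ^ 2 ≤ yy l ^ 2 := by nlinarith
  exact (pow_le_pow_iff_left₀ (by norm_num) (yy_pos l).le (by norm_num)).1 h4

lemma ww_three {B0 : ℝ} {l : ℕ} (h : Num B0 l) :
    4 * B0 / yy l ^ 52 < ww (1 / 32) (l + 3) := by
  have h0 := yy_pos l
  have hp := yy_pow l
  unfold ww
  have e : (2 : ℝ) ^ (l + 3) = 8 * yy l ^ 50 := by rw [hp]; ring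
  rw [e, div_lt_div_iff₀ (by positivity) (by positivity)]
  have e2 : (((l + 3 : ℕ) : ℝ) + 1) = (l : ℝ) + 4 := by push_cast; ring
  rw [e2]
  have h1 := h.big
  have h2 : 0 < yy l ^ 50 := by positivity
  have h3 : yy l ^ 52 = yy l ^ 50 * yy l ^ 2 := by ring
  rw [h3]
  nlinarith [mul_lt_mul_of_pos_left h1 h2]

lemma ww_two {B0 : ℝ} (_hB : 1 ≤ B0) {l : ℕ} (h : Num B0 l) :
    8 * B0 / yy l ^ 52 < ww (1 / 32) (l + 2) := by
  have h0 := yy_pos l
  have hp := yy_pow l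
  unfold ww
  have e : (2 : ℝ) ^ (l + 2) = 4 * yy l ^ 50 := by rw [hp]; ring
  rw [e, div_lt_div_iff₀ (by positivity) (by positivity)]
  have e2 : (((l + 2 : ℕ) : ℝ) + 1) = (l : ℝ) + 3 := by push_cast; ring
  rw [e2]
  have h1 := h.big
  have hl : (0 : ℝ) ≤ l := Nat.cast_nonneg l
  have h4 : 1024 * B0 * ((l : ℝ) + 3) ^ 2 < yy l ^ 2 := by
    refine lt_of_le_of_lt ?_ h1
    have : ((l : ℝ) + 3) ^ 2 ≤ ((l : ℝ) + 4) ^ 2 := by nlinarith
    exact mul_le_mul_of_nonneg_left this (by positivity)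
  have h2 : 0 < yy l ^ 50 := by positivity
  have h3 : yy l ^ 52 = yy l ^ 50 * yy l ^ 2 := by ring
  rw [h3]
  nlinarith [mul_lt_mul_of_pos_left h4 h2]

lemma ww_block {B0 : ℝ} (_hB : 1 ≤ B0) {l : ℕ} (h : Num B0 l) :
    3 * B0 / yy l ^ 4 < 2 ^ (l + 1) * ww (1 / 32) (l + 3) := by
  have h0 := yy_pos l
  unfold ww
  have e : (2 : ℝ) ^ (l + 3) = 4 * 2 ^ (l + 1) := by ring
  have e2 : (((l + 3 : ℕ) : ℝ) + 1) = (l : ℝ) + 4 := by push_cast; ring
  rw [e, e2]
  have h5 : (2 : ℝ) ^ (l + 1) * (1 / 32 / (4 * 2 ^ (l + 1) * ((l : ℝ) + 4) ^ 2)) =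
      1 / (128 * ((l : ℝ) + 4) ^ 2) := by
    field_simp
    norm_num
  rw [h5, div_lt_div_iff₀ (by positivity) (by positivity)]
  have h1 := h.big
  have h2 : (1 : ℝ) ≤ yy l ^ 2 := one_le_pow₀ (one_le_yy l)
  have h3 : yy l ^ 4 = yy l ^ 2 * yy l ^ 2 := by ring
  rw [h3]
  nlinarith

lemma ww_anti {l l' : ℕ} (h : l ≤ l') : ww (1 / 32) l' ≤ ww (1 / 32) l :=
  antitone_nat_of_succ_le (f := ww (1 / 32)) (fun l => uu_ww_anti (by norm_num) l) h

/-- contradiction in the good cases -/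
lemma num_contra {B0 y : ℝ} (hB : 1 ≤ B0) (hy : 128 ≤ y) (hb : 1024 * B0 ≤ y ^ 2)
    (h : 1 / (2 * y ^ 27) ≤ 5 / y ^ 30 + 3 * B0 / y ^ 43) : False := by
  have hy0 : 0 < y := by linarith
  have h1 : y ^ 43 * (1 / (2 * y ^ 27)) ≤ y ^ 43 * (5 / y ^ 30 + 3 * B0 / y ^ 43) :=
    mul_le_mul_of_nonneg_left h (by positivity)
  have e1 : y ^ 43 * (1 / (2 * y ^ 27)) = y ^ 16 / 2 := by field_simp
  have e2 : y ^ 43 * (5 / y ^ 30 + 3 * B0 / y ^ 43) = 5 * y ^ 13 + 3 * B0 := by field_simp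
  rw [e1, e2] at h1
  have h2 : y ^ 16 = y ^ 3 * y ^ 13 := by ring
  have h3 : (128 : ℝ) ^ 3 ≤ y ^ 3 := pow_le_pow_left₀ (by norm_num) hy 3
  have h4 : y ^ 2 ≤ y ^ 13 := pow_le_pow_right₀ (by linarith) (by norm_num)
  have h5 : 0 < y ^ 13 := by positivity
  nlinarith

theorem sep5_all : S_SEP5 := by
  intro B0 hB
  obtain ⟨L, hL⟩ := num_large hB
  have hf := fn_all
  obtain ⟨hu1, hu2, hu3, hu4, hu5, -⟩ := uu_all (1 / 32) (by norm_num) (by norm_num)
  have huz := uu_zero_le (c0 := 1 / 32) (by norm_num)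
  have huanti := uu_anti (c0 := 1 / 32) (by norm_num)
  have hB0 : 0 < B0 := by linarith
  refine ⟨1 / (32 * B0), L, by positivity, ?_, ?_⟩
  · rw [div_le_one (by positivity)]
    linarith
  set c2 : ℝ := 1 / (32 * B0) with hc2def
  have hc2 : 0 < c2 := by positivity
  have hc21 : c2 ≤ 1 := by
    rw [hc2def, div_le_one (by positivity)]
    linarith
  have hc2B : B0 * c2 = 1 / 32 := by
    rw [hc2def]
    field_simp
  intro l0 hl0 V hV r P U A hU hP hU0 hU1 hP1 hUr i j hi hij σ hσ0 hσ1 z Δ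
  obtain ⟨t1, t2, t3⟩ := th_bd hf hσ0 hσ1
  have hk := kap_le hf
  -- componentwise recursions
  have U1 : ∀ m j, U (j + 1) m = U j m + A j m := fun m j => by rw [hU]; rfl
  have P1 : ∀ m j, P (j + 1) m = P j m + U j m + kap * A j m := fun m j => by rw [hP]; rfl
  have A1 : ∀ j, A j 1 ≤ 0 := fun j => by
    have := U1 1 j
    rw [hU1, hU1] at this
    linarith [hu1 j]
  have A0 : ∀ j, A j 0 = V (j + 1) - V j := fun j => by
    have := U1 0 j
    rw [hU0, hU0] at this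
    linarith
  -- the scale
  have hi0 : 1 ≤ i := le_trans Nat.one_le_two_pow hi
  set l := Nat.log 2 i with hl
  have hl1 : 2 ^ l ≤ i := Nat.pow_log_le_self 2 (by omega)
  have hl2 : i < 2 ^ (l + 1) := Nat.lt_pow_succ_log_self (by norm_num) i
  have hll : l0 ≤ l := (Nat.le_log_iff_pow_le (by norm_num) (by omega)).2 hi
  have hnum := hL l (hl0.trans hll)
  have hy0 := yy_pos l
  have hy1 := one_le_yy l
  have hyp := yy_pow l
  have hy128 := hnum.y128
  have hbig : 1024 * B0 ≤ yy l ^ 2 := by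
    have h1 := hnum.big
    have h2 : (0 : ℝ) ≤ l := Nat.cast_nonneg l
    have h3 : (1 : ℝ) ≤ ((l : ℝ) + 4) ^ 2 := by nlinarith
    nlinarith
  -- scales of later indices
  have hlater : ∀ k, i ≤ k → l ≤ Nat.log 2 k ∧ l0 ≤ Nat.log 2 k ∧
      k ∈ Finset.Ico (2 ^ (Nat.log 2 k)) (2 ^ (Nat.log 2 k + 1)) := by
    intro k hk
    have h1 : l ≤ Nat.log 2 k := Nat.log_mono_right hk
    refine ⟨h1, hll.trans h1, ?_⟩
    rw [Finset.mem_Ico]
    exact ⟨Nat.pow_log_le_self 2 (by omega), Nat.lt_pow_succ_log_self (by norm_num) k⟩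
  have A0b : ∀ k, i ≤ k → 0 ≤ A k 0 ∧ A k 0 ≤ 1 / yy l ^ 48 := fun k hk => by
    rw [A0]
    obtain ⟨h1, h2, h3⟩ := hlater k hk
    exact ⟨by linarith [hV.mono k], (hV.step _ h2 k h3).trans (inv_yy_mono 48 h1)⟩
  -- the slow coordinate
  obtain ⟨g, rfl⟩ : ∃ g, j = i + g := ⟨j - i, by omega⟩
  have hg0 : 1 ≤ g := by omega
  have hg1 : (1 : ℝ) ≤ g := by exact_mod_cast hg0
  have slow : ∀ g : ℕ, (g : ℝ) * uu (1 / 32) (i + g + 1) ≤
      pos (P (i + g)) (U (i + g)) (A (i + g)) σ 1 - pos (P i) (U i) (A i) σ 1 := by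
    intro g
    have := slow_sep5 hf (P := fun j => P j 1) (U := fun j => U j 1) (A := fun j => A j 1)
      (U1 1) (P1 1) A1 hσ0 hσ1 i g
    simp only [hU1 (i + g + 1)] at this
    exact this
  have hmono : Monotone (fun j => pos (P j) (U j) (A j) σ 1) := by
    refine monotone_nat_of_le_succ fun j => ?_
    have := slow_step5 hf (P := fun j => P j 1) (U := fun j => U j 1) (A := fun j => A j 1)
      (U1 1) (P1 1) A1 hσ0 hσ1 j
    have h0 : 0 ≤ U (j + 2) 1 := by rw [hU1]; exact (hu2 _).1.le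
    simp only [pos]
    linarith
  have slowP : ∀ j, 0 ≤ P j 1 ∧ P j 1 ≤ ∑ i ∈ Finset.range j, uu (1 / 32) i := by
    intro j
    induction j with
    | zero => simp [hP1]
    | succ j ih =>
      rw [P1, Finset.sum_range_succ, hU1]
      have a1 := A1 j
      have a2 : 0 ≤ uu (1 / 32) j + A j 1 := by
        have := U1 1 j
        rw [hU1, hU1] at this
        linarith [(hu2 (j + 1)).1]
      have a3 : kap * A j 1 ≤ 0 := mul_nonpos_of_nonneg_of_nonpos hk.1 a1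
      have a4 : A j 1 ≤ kap * A j 1 := by nlinarith
      constructor <;> linarith [ih.1, ih.2]
  have hz1 : z 1 = pos (P (i + g)) (U (i + g)) (A (i + g)) σ 1 - pos (P i) (U i) (A i) σ 1 := rfl
  have hz0 : z 0 = pos (P (i + g)) (U (i + g)) (A (i + g)) σ 0 - pos (P i) (U i) (A i) σ 0 := rfl
  have hz1nn : 0 ≤ z 1 := by
    rw [hz1]
    exact sub_nonneg.2 (hmono (by omega))
  have hz1le : z 1 ≤ 1 / 2 := by
    rw [hz1]
    have hup : ∀ j, pos (P j) (U j) (A j) σ 1 ≤ 1 / 4 := by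
      intro j
      have b1 := (slowP j).2
      have b2 := hu5 (j + 1)
      rw [Finset.sum_range_succ] at b2
      have b3 := (hu2 j).1
      have b4 : th σ * A j 1 ≤ 0 := mul_nonpos_of_nonneg_of_nonpos t1 (A1 j)
      simp only [pos, hU1]
      nlinarith
    have hlo : ∀ j, -(1 / 8) ≤ pos (P j) (U j) (A j) σ 1 := by
      intro j
      have b1 := (slowP j).1
      have b3 := (hu2 j).1
      have b5 : uu (1 / 32) j ≤ 1 / 16 := by
        have := huanti (Nat.zero_le j)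
        linarith
      have b6 : -uu (1 / 32) j ≤ A j 1 := by
        have := U1 1 j
        rw [hU1, hU1] at this
        linarith [(hu2 (j + 1)).1]
      have b7 : A j 1 ≤ th σ * A j 1 := by nlinarith [A1 j]
      simp only [pos, hU1]
      nlinarith
    linarith [hup (i + g), hlo i]
  refine ⟨⟨hz1nn, hz1le⟩, ?_⟩
  -- the velocity differences
  have f := fast_sep5 hf (P := fun j => P j 0) (U := fun j => U j 0) (A := fun j => A j 0)
    (U1 0) (P1 0) A0b hσ0 hσ1 g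
  simp only [hU0] at f
  obtain ⟨⟨f1, f2⟩, f3⟩ := f
  have huu : ∀ g : ℕ, uu (1 / 32) i - uu (1 / 32) (i + g) ≤ g * (1 / yy l ^ 48) := by
    intro g
    induction g with
    | zero => simp
    | succ g ih =>
      have h1 := hu4 (i + g) (by omega)
      obtain ⟨h2, -, -⟩ := hlater (i + g) (by omega)
      have h3 : ww (1 / 32) (Nat.log 2 (i + g)) / 2 ^ (Nat.log 2 (i + g)) ≤ 1 / yy l ^ 48 := by
        have h4 : ww (1 / 32) (Nat.log 2 (i + g)) ≤ 1 := by
          unfold ww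
          rw [div_le_one (by positivity)]
          have h5 : (1 : ℝ) ≤ 2 ^ (Nat.log 2 (i + g)) := one_le_pow₀ (by norm_num)
          have h6 : (1 : ℝ) ≤ ((Nat.log 2 (i + g) : ℝ) + 1) ^ 2 := by
            apply one_le_pow₀
            have : (0 : ℝ) ≤ (Nat.log 2 (i + g) : ℝ) := by positivity
            linarith
          nlinarith
        have h7 : yy l ^ 48 ≤ 2 ^ (Nat.log 2 (i + g)) := by
          calc yy l ^ 48 ≤ yy l ^ 50 := pow_le_pow_right₀ hy1 (by norm_num)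
            _ = 2 ^ l := hyp
            _ ≤ 2 ^ (Nat.log 2 (i + g)) := pow_le_pow_right₀ (by norm_num) h2
        calc ww (1 / 32) (Nat.log 2 (i + g)) / 2 ^ (Nat.log 2 (i + g))
            ≤ 1 / 2 ^ (Nat.log 2 (i + g)) := by gcongr
          _ ≤ 1 / yy l ^ 48 := one_div_le_one_div_of_le (by positivity) h7
      rw [show i + (g + 1) = i + g + 1 by ring]
      push_cast
      linarith
  have hnorm : ‖U (i + g) - U i‖ ≤ g * (1 / yy l ^ 48) := by
    rw [pi_norm_le_iff_of_nonneg (by positivity)]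
    intro m
    rw [Pi.sub_apply, Real.norm_eq_abs]
    refine Fin.cases ?_ (fun m => ?_) m
    · rw [hU0, hU0, abs_of_nonneg f1]
      exact f2
    · refine Fin.cases ?_ (fun m => ?_) m
      · have e1 : (Fin.succ (0 : Fin (r + 1))) = (1 : Fin (r + 2)) := rfl
        rw [e1, hU1, hU1, abs_sub_comm, abs_of_nonneg (by linarith [huanti (by omega : i ≤ i + g)])]
        exact huu g
      · rw [hUr, hUr, sub_zero, abs_zero]
        positivity
  -- the radii
  obtain ⟨hj1, hj2, hj3⟩ := hlater (i + g) (by omega)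
  obtain ⟨-, -, hi3⟩ := hlater i le_rfl
  rw [← hl] at hi3
  set l' := Nat.log 2 (i + g) with hl'
  have hVi : yy l ^ 2 ≤ V i := hV.lo l hll i hi3
  have hVi2 : yy l ^ 4 ≤ V i ^ 2 := by
    calc yy l ^ 4 = (yy l ^ 2) ^ 2 := by ring
      _ ≤ V i ^ 2 := pow_le_pow_left₀ (by positivity) hVi 2
  have hri : rd c2 l (V i) ≤ 1 / yy l ^ 43 :=
    (rd_le hc2.le l (V i)).trans (mul_le_of_le_one_left (by positivity) hc21)
  have hrj : rd c2 l' (V (i + g)) ≤ 1 / yy l ^ 43 :=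
    ((rd_le hc2.le l' (V (i + g))).trans (mul_le_of_le_one_left (by
      have := yy_pos l'
      positivity) hc21)).trans (inv_yy_mono 43 hj1)
  have hmin1 : min 1 ‖U (i + g) - U i‖ / V i ^ 2 ≤ 1 / yy l ^ 4 := by
    have : min 1 ‖U (i + g) - U i‖ ≤ 1 := min_le_left _ _
    gcongr
  have hmin2 : min 1 ‖U (i + g) - U i‖ / V i ^ 2 ≤ g / yy l ^ 52 := by
    calc min 1 ‖U (i + g) - U i‖ / V i ^ 2 ≤ (g * (1 / yy l ^ 48)) / yy l ^ 4 := by
          have h1 : min 1 ‖U (i + g) - U i‖ ≤ g * (1 / yy l ^ 48) := (min_le_right _ _).trans hnorm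
          have h2 : 0 ≤ (g : ℝ) * (1 / yy l ^ 48) := by positivity
          gcongr
      _ = g / yy l ^ 52 := by field_simp
  have hΔ : Δ = B0 * (rd c2 l (V i) + rd c2 l' (V (i + g)) + min 1 ‖U (i + g) - U i‖ / V i ^ 2) :=
    rfl
  rintro m ⟨hm1, hm2⟩
  by_cases hfar : 2 ^ (l + 2) < i + g
  · -- far away
    have s1 := slow (2 ^ (l + 2) - i)
    have e1 : i + (2 ^ (l + 2) - i) = 2 ^ (l + 2) := by
      have : 2 ^ (l + 2) = 2 * 2 ^ (l + 1) := by ring
      omega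
    rw [e1] at s1
    have s2 : ww (1 / 32) (l + 3) ≤ uu (1 / 32) (2 ^ (l + 2) + 1) := by
      refine hu3 (l + 2) _ ?_
      have h1 : 2 ^ (l + 2 + 1) = 2 * 2 ^ (l + 2) := by ring
      have h2 : 2 ≤ 2 ^ (l + 2) := by
        calc 2 = 2 ^ 1 := by norm_num
          _ ≤ 2 ^ (l + 2) := Nat.pow_le_pow_right (by norm_num) (by omega)
      omega
    have s3 : (2 : ℝ) ^ (l + 1) ≤ ((2 ^ (l + 2) - i : ℕ) : ℝ) := by
      have h1 : 2 ^ (l + 1) ≤ 2 ^ (l + 2) - i := by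
        have : 2 ^ (l + 2) = 2 * 2 ^ (l + 1) := by ring
        omega
      exact_mod_cast h1
    have s4 : pos (P (2 ^ (l + 2))) (U (2 ^ (l + 2))) (A (2 ^ (l + 2))) σ 1 ≤
        pos (P (i + g)) (U (i + g)) (A (i + g)) σ 1 := hmono hfar.le
    have hw0 : 0 < ww (1 / 32) (l + 3) := by unfold ww; positivity
    have s5 : 2 ^ (l + 1) * ww (1 / 32) (l + 3) ≤ z 1 := by
      rw [hz1]
      have : (2 : ℝ) ^ (l + 1) * ww (1 / 32) (l + 3) ≤
          ((2 ^ (l + 2) - i : ℕ) : ℝ) * uu (1 / 32) (2 ^ (l + 2) + 1) :=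
        mul_le_mul s3 s2 hw0.le (by positivity)
      linarith
    have s6 := ww_block hB hnum
    have s7 : Δ ≤ 3 * B0 / yy l ^ 4 := by
      rw [hΔ]
      have h43 : 1 / yy l ^ 43 ≤ 1 / yy l ^ 4 :=
        one_div_le_one_div_of_le (by positivity) (pow_le_pow_right₀ hy1 (by norm_num))
      calc B0 * (rd c2 l (V i) + rd c2 l' (V (i + g)) + min 1 ‖U (i + g) - U i‖ / V i ^ 2)
          ≤ B0 * (1 / yy l ^ 4 + 1 / yy l ^ 4 + 1 / yy l ^ 4) := by
            apply mul_le_mul_of_nonneg_left _ hB0.le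
            linarith
        _ = 3 * B0 / yy l ^ 4 := by ring
    linarith
  push Not at hfar
  by_cases hgy : yy l ^ 9 < g
  · -- many steps
    have s1 := slow g
    have s2 : ww (1 / 32) (l + 3) ≤ uu (1 / 32) (i + g + 1) := by
      refine hu3 (l + 2) _ ?_
      have h1 : 2 ^ (l + 2 + 1) = 2 * 2 ^ (l + 2) := by ring
      have h2 : 2 ≤ 2 ^ (l + 2) := by
        calc 2 = 2 ^ 1 := by norm_num
          _ ≤ 2 ^ (l + 2) := Nat.pow_le_pow_right (by norm_num) (by omega)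
      omega
    have s3 := ww_three hnum
    have s4 : (g : ℝ) * (4 * B0 / yy l ^ 52) < z 1 := by
      rw [hz1]
      have h1 : (g : ℝ) * (4 * B0 / yy l ^ 52) < g * ww (1 / 32) (l + 3) :=
        mul_lt_mul_of_pos_left s3 (by linarith)
      have h2 : (g : ℝ) * ww (1 / 32) (l + 3) ≤ g * uu (1 / 32) (i + g + 1) :=
        mul_le_mul_of_nonneg_left s2 (by linarith)
      linarith
    have s5 : Δ ≤ 3 * (B0 * (g / yy l ^ 52)) := by
      rw [hΔ]
      have h43 : 1 / yy l ^ 43 ≤ g / yy l ^ 52 := by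
        rw [div_le_div_iff₀ (by positivity) (by positivity)]
        have : yy l ^ 52 = yy l ^ 9 * yy l ^ 43 := by ring
        rw [this, one_mul]
        exact mul_le_mul_of_nonneg_right hgy.le (by positivity)
      have h2 : rd c2 l (V i) + rd c2 l' (V (i + g)) + min 1 ‖U (i + g) - U i‖ / V i ^ 2 ≤
          3 * (g / yy l ^ 52) := by linarith
      calc B0 * (rd c2 l (V i) + rd c2 l' (V (i + g)) + min 1 ‖U (i + g) - U i‖ / V i ^ 2)
          ≤ B0 * (3 * (g / yy l ^ 52)) := mul_le_mul_of_nonneg_left h2 hB0.le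
        _ = _ := by ring
    have s6 : (g : ℝ) * (4 * B0 / yy l ^ 52) = 4 * (B0 * (g / yy l ^ 52)) := by ring
    have s7 : 0 < B0 * (g / yy l ^ 52) := by positivity
    linarith
  push Not at hgy
  -- few steps
  have hnear : i + g + 2 ≤ 2 ^ (l + 2) := by
    have h1 : (g : ℝ) + 2 ≤ 2 ^ l := by
      rw [← hyp]
      have h2 : yy l ^ 50 = yy l ^ 41 * yy l ^ 9 := by ring
      have h3 : (1 : ℝ) ≤ yy l ^ 9 := one_le_pow₀ hy1
      have h4 : yy l ≤ yy l ^ 41 := le_self_pow₀ hy1 (by norm_num)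
      nlinarith
    have h5 : g + 2 ≤ 2 ^ l := by exact_mod_cast h1
    have h6 : 2 ^ (l + 2) = 2 ^ (l + 1) + 2 ^ l + 2 ^ l := by ring
    omega
  have hl'1 : l' ≤ l + 1 := by
    have : Nat.log 2 (i + g) < l + 2 := Nat.log_lt_of_lt_pow (by omega) (by omega)
    omega
  have e0 : z 0 = (P (i + g) 0 + σ * V (i + g) + th σ * A (i + g) 0) -
      (P i 0 + σ * V i + th σ * A i 0) := by
    rw [hz0]
    simp only [pos, hU0]
  have hgg : (g : ℝ) ^ 2 ≤ yy l ^ 18 := by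
    calc (g : ℝ) ^ 2 ≤ (yy l ^ 9) ^ 2 := pow_le_pow_left₀ (by positivity) hgy 2
      _ = yy l ^ 18 := by ring
  have f4 : |z 0 - g * V i| ≤ 4 / yy l ^ 30 := by
    rw [e0]
    refine f3.trans ?_
    have h1 : ((g : ℝ) + 1) ^ 2 ≤ 4 * yy l ^ 18 := by nlinarith
    calc ((g : ℝ) + 1) ^ 2 * (1 / yy l ^ 48) ≤ (4 * yy l ^ 18) * (1 / yy l ^ 48) :=
          mul_le_mul_of_nonneg_right h1 (by positivity)
      _ = 4 / yy l ^ 30 := by field_simp
  have hΔ2 : Δ ≤ 3 * B0 / yy l ^ 43 := by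
    rw [hΔ]
    have h1 : (g : ℝ) / yy l ^ 52 ≤ 1 / yy l ^ 43 := by
      rw [div_le_div_iff₀ (by positivity) (by positivity)]
      have : yy l ^ 52 = yy l ^ 9 * yy l ^ 43 := by ring
      rw [this, one_mul]
      exact mul_le_mul_of_nonneg_right hgy (by positivity)
    calc B0 * (rd c2 l (V i) + rd c2 l' (V (i + g)) + min 1 ‖U (i + g) - U i‖ / V i ^ 2)
        ≤ B0 * (1 / yy l ^ 43 + 1 / yy l ^ 43 + 1 / yy l ^ 43) := by
          apply mul_le_mul_of_nonneg_left _ hB0.le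
          linarith
      _ = 3 * B0 / yy l ^ 43 := by ring
  by_cases hgi : GoodV l (V i)
  · have h8 := hgi g hg0 hgy
    have h10 := round_le ((g : ℝ) * V i) m
    have h11 : |(g : ℝ) * V i - m| ≤ |z 0 - m| + |z 0 - g * V i| := by
      have : (g : ℝ) * V i - m = (z 0 - m) - (z 0 - g * V i) := by ring
      rw [this]; exact abs_sub _ _
    have h12 : 1 / (2 * yy l ^ 27) ≤ 1 / yy l ^ 27 :=
      one_div_le_one_div_of_le (by positivity) (by linarith [pow_pos hy0 27])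
    have h13 : 4 / yy l ^ 30 ≤ 5 / yy l ^ 30 := by gcongr; norm_num
    exact num_contra hB hy128 hbig (by linarith)
  by_cases hgj : GoodV l' (V (i + g))
  · have h7 : yy l ^ 9 ≤ yy l' ^ 9 := pow_le_pow_left₀ hy0.le (yy_mono hj1) 9
    have h8 := hgj g hg0 (hgy.trans h7)
    have h9 : 1 / (2 * yy l ^ 27) ≤ 1 / yy l' ^ 27 := by
      apply one_div_le_one_div_of_le (pow_pos (yy_pos l') 27)
      have h1 : yy l' ≤ 51 / 50 * yy l := (yy_mono hl'1).trans (yy_succ_le l)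
      calc yy l' ^ 27 ≤ (51 / 50 * yy l) ^ 27 := pow_le_pow_left₀ (yy_pos l').le h1 27
        _ = (51 / 50) ^ 27 * yy l ^ 27 := by rw [mul_pow]
        _ ≤ 2 * yy l ^ 27 := by
          apply mul_le_mul_of_nonneg_right _ (by positivity)
          norm_num
    have h10 := round_le ((g : ℝ) * V (i + g)) m
    have h14 : |(g : ℝ) * V (i + g) - g * V i| ≤ 1 / yy l ^ 30 := by
      rw [← mul_sub, abs_mul, abs_of_nonneg (by positivity : (0 : ℝ) ≤ g), abs_of_nonneg f1]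
      calc (g : ℝ) * (V (i + g) - V i) ≤ g * (g * (1 / yy l ^ 48)) :=
            mul_le_mul_of_nonneg_left f2 (by positivity)
        _ = (g : ℝ) ^ 2 * (1 / yy l ^ 48) := by ring
        _ ≤ yy l ^ 18 * (1 / yy l ^ 48) := mul_le_mul_of_nonneg_right hgg (by positivity)
        _ = 1 / yy l ^ 30 := by field_simp
    have h11 : |(g : ℝ) * V (i + g) - m| ≤ |z 0 - m| + |z 0 - g * V i| +
        |(g : ℝ) * V (i + g) - g * V i| := by
      have : (g : ℝ) * V (i + g) - m = (z 0 - m) - (z 0 - g * V i) +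
        ((g : ℝ) * V (i + g) - g * V i) := by ring
      rw [this]
      exact (abs_add_le _ _).trans (add_le_add (abs_sub _ _) le_rfl)
    have h13 : 4 / yy l ^ 30 + 1 / yy l ^ 30 = 5 / yy l ^ 30 := by ring
    exact num_contra hB hy128 hbig (by linarith)
  · -- both small radii
    have s1 := slow g
    have s2 : ww (1 / 32) (l + 2) ≤ uu (1 / 32) (i + g + 1) := hu3 (l + 1) _ (by
      have h1 : 2 ^ (l + 2) = 4 * 2 ^ l := by ring
      omega)
    have s3 := ww_two hB hnum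
    have hw0 : 0 < ww (1 / 32) (l + 2) := by unfold ww; positivity
    have s4 : (g : ℝ) * ww (1 / 32) (l + 2) ≤ z 1 := by
      rw [hz1]
      exact (mul_le_mul_of_nonneg_left s2 (by linarith)).trans s1
    have s5 : Δ ≤ 1 / 16 * ww (1 / 32) (l + 2) + B0 * (g / yy l ^ 52) := by
      rw [hΔ, rd_bad hgi, rd_bad hgj]
      have h1 : ww (1 / 32) (l' + 2) ≤ ww (1 / 32) (l + 2) := ww_anti (by omega)
      have h2 : c2 * ww (1 / 32) (l' + 2) ≤ c2 * ww (1 / 32) (l + 2) :=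
        mul_le_mul_of_nonneg_left h1 hc2.le
      calc B0 * (c2 * ww (1 / 32) (l + 2) + c2 * ww (1 / 32) (l' + 2) +
            min 1 ‖U (i + g) - U i‖ / V i ^ 2)
          ≤ B0 * (c2 * ww (1 / 32) (l + 2) + c2 * ww (1 / 32) (l + 2) + g / yy l ^ 52) := by
            apply mul_le_mul_of_nonneg_left _ hB0.le
            linarith
        _ = 2 * (B0 * c2) * ww (1 / 32) (l + 2) + B0 * (g / yy l ^ 52) := by ring
        _ = _ := by rw [hc2B]; ring
    have s6 : (g : ℝ) * (8 * B0 / yy l ^ 52) < g * ww (1 / 32) (l + 2) :=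
      mul_lt_mul_of_pos_left s3 (by linarith)
    have s7 : (g : ℝ) * (8 * B0 / yy l ^ 52) = 8 * (B0 * (g / yy l ^ 52)) := by ring
    have s8 : ww (1 / 32) (l + 2) ≤ g * ww (1 / 32) (l + 2) := le_mul_of_one_le_left hw0.le hg1
    linarith

end Pool.Agent.J6H27.AD
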