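import Pool.Agent.J6H27.AD.YY

/-!
# Leaf V5: the fast velocities
-/

set_option autoImplicit false

open Set Filter Topology

namespace Pool.Agent.J6H27.AD

open Pool.Agent.N980.TL Pool.Agent.J6H70.AD

lemma v5_card (S : Finset ℕ) (R : ℕ) (h : ∀ i ∈ S, ∀ j ∈ S, i ≤ j → j ≤ i + R) :
    S.card ≤ R + 1 := by
  rcases S.eq_empty_or_nonempty with rfl | hne
  · simp
  · have hsub : S ⊆ Finset.Icc (S.min' hne) (S.min' hne + R) := by
      intro j hj
      rw [Finset.mem_Icc]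
      exact ⟨S.min'_le j hj, h _ (S.min'_mem hne) j hj (S.min'_le j hj)⟩
    refine (Finset.card_le_card hsub).trans ?_
    rw [Nat.card_Icc]
    omega

section block

variable {l : ℕ} {V : ℕ → ℝ}

/-- the increments -/
lemma v5_growth {c : ℝ} {i j : ℕ} (hij : i ≤ j)
    (h : ∀ k ∈ Finset.Ico i j, c ≤ V (k + 1) - V k) : ((j : ℝ) - i) * c ≤ V j - V i := by
  have h1 := Finset.card_nsmul_le_sum _ _ _ h
  rw [Nat.card_Ico, nsmul_eq_mul, Nat.cast_sub hij, Finset.sum_Ico_eq_sub _ hij,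
    Finset.sum_range_sub, Finset.sum_range_sub] at h1
  linarith

/-- the bad steps are few -/
lemma v5_bad (hy : 1 ≤ yy l) (hV0 : ∀ j ∈ Finset.Ico (2 ^ l) (2 ^ (l + 1)), 0 ≤ V j)
    (hV1 : ∀ j ∈ Finset.Ico (2 ^ l) (2 ^ (l + 1)), V j ≤ 2 * yy l ^ 2)
    (hinc : ∀ j ∈ Finset.Ico (2 ^ l) (2 ^ (l + 1)), 1 / yy l ^ 56 ≤ V (j + 1) - V j)
    (B : Finset ℕ) (hB : B ⊆ Finset.Ico (2 ^ l) (2 ^ (l + 1)))
    (hbad : ∀ j ∈ B, ¬ GoodV l (V j)) : (B.card : ℝ) ≤ 12 * yy l ^ 49 := by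
  classical
  have hy0 := yy_pos l
  set y := yy l with hyd
  set N1 : ℕ := ⌊y ^ 9⌋₊ with hN1
  set N2 : ℕ := ⌊3 * y ^ 11⌋₊ with hN2
  set R : ℕ := ⌊2 * y ^ 29⌋₊ with hR
  set S : ℕ × ℕ → Finset ℕ := fun p => (Finset.Ico (2 ^ l) (2 ^ (l + 1))).filter
    (fun j => |(p.1 : ℝ) * V j - p.2| < 1 / y ^ 27) with hS
  have hsub : B ⊆ (Finset.Icc 1 N1 ×ˢ Finset.range (N2 + 1)).biUnion S := by
    intro j hj
    have h1 := hbad j hj
    unfold GoodV at h1
    push Not at h1
    obtain ⟨g, hg1, hg2, hg3⟩ := h1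
    have hj' := hB hj
    have hV := hV0 j hj'
    have hVu := hV1 j hj'
    have hgV : 0 ≤ (g : ℝ) * V j := by positivity
    have habs := abs_le.1 (abs_sub_round ((g : ℝ) * V j))
    have hr0 : 0 ≤ round ((g : ℝ) * V j) := by
      have h5 : (((-1 : ℤ)) : ℝ) < ((round ((g : ℝ) * V j) : ℤ) : ℝ) := by
        push_cast; linarith [habs.2]
      have h6 : (-1 : ℤ) < round ((g : ℝ) * V j) := by exact_mod_cast h5
      omega
    have e : (((round ((g : ℝ) * V j)).toNat : ℕ) : ℝ) = ((round ((g : ℝ) * V j) : ℤ) : ℝ) := by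
      have := Int.toNat_of_nonneg hr0
      exact_mod_cast this
    rw [Finset.mem_biUnion]
    refine ⟨(g, (round ((g : ℝ) * V j)).toNat), ?_, ?_⟩
    · rw [Finset.mem_product, Finset.mem_Icc, Finset.mem_range]
      refine ⟨⟨hg1, Nat.le_floor hg2⟩, ?_⟩
      simp only
      rw [Nat.lt_succ_iff]
      apply Nat.le_floor
      rw [e]
      have h2 : (g : ℝ) * V j ≤ y ^ 9 * (2 * y ^ 2) := mul_le_mul hg2 hVu hV (by positivity)
      have h3 : (1 : ℝ) ≤ y ^ 11 := one_le_pow₀ hy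
      have h4 : y ^ 9 * (2 * y ^ 2) = 2 * y ^ 11 := by ring
      linarith [habs.1]
    · rw [hS]
      simp only [Finset.mem_filter]
      refine ⟨hj', ?_⟩
      rw [e]
      exact hg3
  have hcard : B.card ≤ (N1 * (N2 + 1)) * (R + 1) := by
    refine (Finset.card_le_card hsub).trans ?_
    refine (Finset.card_biUnion_le_card_mul _ _ (R + 1) ?_).trans ?_
    · intro p hp
      rw [Finset.mem_product, Finset.mem_Icc] at hp
      apply v5_card
      intro i hi j hj hij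
      rw [hS] at hi hj
      simp only [Finset.mem_filter, Finset.mem_Ico] at hi hj
      have hp1 : (1 : ℝ) ≤ p.1 := by exact_mod_cast hp.1.1
      have h1 := v5_growth (V := V) (c := 1 / y ^ 56) hij (fun k hk => hinc k (by
        rw [Finset.mem_Ico] at hk ⊢
        omega))
      have h2 := abs_lt.1 hi.2
      have h3 := abs_lt.1 hj.2
      have h0 : 0 < 1 / y ^ 56 := by positivity
      have h4 : 0 ≤ V j - V i := by
        have : (0 : ℝ) ≤ (j : ℝ) - i := by
          have : (i : ℝ) ≤ j := by exact_mod_cast hij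
          linarith
        nlinarith
      have h5 : V j - V i ≤ 2 * (1 / y ^ 27) := by nlinarith
      have h6 : ((j : ℝ) - i) * (1 / y ^ 56) ≤ (2 * y ^ 29) * (1 / y ^ 56) := by
        refine (h1.trans h5).trans (le_of_eq ?_)
        field_simp
      have h7 := le_of_mul_le_mul_right h6 h0
      have h8 : ((j - i : ℕ) : ℝ) ≤ 2 * y ^ 29 := by
        rw [Nat.cast_sub hij]
        exact h7
      have h9 : j - i ≤ R := Nat.le_floor h8
      omega
    · rw [Finset.card_product, Nat.card_Icc, Finset.card_range]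
      simp
  have h1 : (N1 : ℝ) ≤ y ^ 9 := Nat.floor_le (by positivity)
  have h2 : (N2 : ℝ) ≤ 3 * y ^ 11 := Nat.floor_le (by positivity)
  have h3 : (R : ℝ) ≤ 2 * y ^ 29 := Nat.floor_le (by positivity)
  have h4 : (1 : ℝ) ≤ y ^ 11 := one_le_pow₀ hy
  have h5 : (1 : ℝ) ≤ y ^ 29 := one_le_pow₀ hy
  calc (B.card : ℝ) ≤ (((N1 * (N2 + 1)) * (R + 1) : ℕ) : ℝ) := by exact_mod_cast hcard
    _ = (N1 : ℝ) * ((N2 : ℝ) + 1) * ((R : ℝ) + 1) := by push_cast; ring
    _ ≤ y ^ 9 * (4 * y ^ 11) * (3 * y ^ 29) := by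
        apply mul_le_mul _ (by linarith) (by positivity) (by positivity)
        exact mul_le_mul h1 (by linarith) (by positivity) (by positivity)
    _ = 12 * y ^ 49 := by ring

/-- the velocity reaches the next scale within the block -/
lemma v5_block (hy : 48 ≤ yy l) {T : ℝ} (hT : T ≤ 3 / 2 * yy l ^ 2) (h0 : yy l ^ 2 ≤ V (2 ^ l))
    (hV1 : ∀ j ∈ Finset.Ico (2 ^ l) (2 ^ (l + 1)), V j < T)
    (hgood : ∀ j ∈ Finset.Ico (2 ^ l) (2 ^ (l + 1)), GoodV l (V j) →
      1 / yy l ^ 48 ≤ V (j + 1) - V j)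
    (hinc : ∀ j ∈ Finset.Ico (2 ^ l) (2 ^ (l + 1)), 1 / yy l ^ 56 ≤ V (j + 1) - V j) :
    T ≤ V (2 ^ (l + 1)) := by
  classical
  have hy0 := yy_pos l
  have hpw := yy_pow l
  set y := yy l with hyd
  have h2l : 2 ^ l ≤ 2 ^ (l + 1) := Nat.pow_le_pow_right (by norm_num) (by omega)
  have hge : ∀ j ∈ Finset.Ico (2 ^ l) (2 ^ (l + 1)), y ^ 2 ≤ V j := by
    intro j hj
    rw [Finset.mem_Ico] at hj
    have h1 := v5_growth (V := V) (c := 0) hj.1 (fun k hk => by
      have h2 := hinc k (by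
        rw [Finset.mem_Ico] at hk ⊢
        omega)
      have : 0 < 1 / y ^ 56 := by positivity
      linarith)
    linarith
  set I := Finset.Ico (2 ^ l) (2 ^ (l + 1)) with hI
  set G := I.filter (fun j => GoodV l (V j)) with hG
  set B := I.filter (fun j => ¬ GoodV l (V j)) with hBdef
  have hy2 : (1 : ℝ) ≤ y ^ 2 := one_le_pow₀ (by linarith)
  have hBc := v5_bad (l := l) (V := V) (by linarith) (fun j hj => by linarith [hge j hj])
    (fun j hj => by
      have := hV1 j hj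
      linarith) hinc B (Finset.filter_subset _ _)
    (fun j hj => (Finset.mem_filter.1 hj).2)
  have hcard : (G.card : ℝ) + B.card = y ^ 50 := by
    have h1 := Finset.card_filter_add_card_filter_not (s := I) (fun j => GoodV l (V j))
    have h2 : G.card + B.card = 2 ^ l := by
      rw [hG, hBdef]
      refine h1.trans ?_
      rw [hI, Nat.card_Ico, pow_succ]
      omega
    rw [hpw]
    exact_mod_cast h2
  have h12 : 12 * y ^ 49 ≤ y ^ 50 / 4 := by
    have : y ^ 50 = y * y ^ 49 := by ring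
    rw [this]
    have : 0 < y ^ 49 := by positivity
    nlinarith
  have hGc : 3 / 4 * y ^ 50 ≤ G.card := by
    rw [← hyd] at hBc
    linarith
  have h3 : (G.card : ℝ) * (1 / y ^ 48) ≤ ∑ j ∈ G, (V (j + 1) - V j) := by
    have := Finset.card_nsmul_le_sum G (fun j => V (j + 1) - V j) (1 / y ^ 48) (fun j hj =>
      hgood j (Finset.mem_filter.1 hj).1 (Finset.mem_filter.1 hj).2)
    rwa [nsmul_eq_mul] at this
  have h4 : ∑ j ∈ G, (V (j + 1) - V j) ≤ ∑ j ∈ I, (V (j + 1) - V j) :=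
    Finset.sum_le_sum_of_subset_of_nonneg (Finset.filter_subset _ _)
      (fun j hj _ => le_trans (by positivity) (hinc j hj))
  have h5 : ∑ j ∈ I, (V (j + 1) - V j) = V (2 ^ (l + 1)) - V (2 ^ l) := by
    rw [hI, Finset.sum_Ico_eq_sub _ h2l, Finset.sum_range_sub, Finset.sum_range_sub]
    ring
  have h6 : 3 / 4 * y ^ 2 ≤ (G.card : ℝ) * (1 / y ^ 48) := by
    have h7 : 3 / 4 * y ^ 2 = (3 / 4 * y ^ 50) * (1 / y ^ 48) := by
      field_simp
    rw [h7]
    exact mul_le_mul_of_nonneg_right hGc (by positivity)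
  linarith

end block

open Classical in
/-- the increment -/
noncomputable def inc (l0 j : ℕ) (v : ℝ) : ℝ :=
  if j < 2 ^ l0 then 0
  else if v < yy (Nat.log 2 j + 1) ^ 2 then
    (if GoodV (Nat.log 2 j) v then 1 / yy (Nat.log 2 j) ^ 48 else 1 / yy (Nat.log 2 j) ^ 56)
  else 0

/-- the fast velocities -/
noncomputable def vf (l0 : ℕ) : ℕ → ℝ
  | 0 => yy l0 ^ 2
  | j + 1 => vf l0 j + inc l0 j (vf l0 j)

lemma inc_nonneg (l0 j : ℕ) (v : ℝ) : 0 ≤ inc l0 j v := by
  unfold inc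
  have := yy_pos (Nat.log 2 j)
  split_ifs <;> positivity

lemma inv56_le (l : ℕ) : 1 / yy l ^ 56 ≤ 1 / yy l ^ 48 :=
  one_div_le_one_div_of_le (pow_pos (yy_pos l) 48) (pow_le_pow_right₀ (one_le_yy l) (by norm_num))

lemma inc_le {l0 l j : ℕ} (hj : j ∈ Finset.Ico (2 ^ l) (2 ^ (l + 1))) (v : ℝ) :
    inc l0 j v ≤ 1 / yy l ^ 48 := by
  unfold inc
  rw [log_of_mem hj]
  have h := yy_pos l
  have h1 := inv56_le l
  split_ifs
  · positivity
  · exact le_rfl
  · exact h1
  · positivity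

lemma inc_bad {l0 l j : ℕ} (hj : j ∈ Finset.Ico (2 ^ l) (2 ^ (l + 1))) {v : ℝ}
    (hv : ¬ GoodV l v) : inc l0 j v ≤ 1 / yy l ^ 56 := by
  unfold inc
  rw [log_of_mem hj]
  have h := yy_pos l
  split_ifs
  · positivity
  · exact le_rfl
  · positivity

lemma vf_mono (l0 : ℕ) : Monotone (vf l0) :=
  monotone_nat_of_le_succ (fun j => by
    have := inc_nonneg l0 j (vf l0 j)
    simp only [vf]
    linarith)

lemma vf_const (l0 : ℕ) : ∀ j ≤ 2 ^ l0, vf l0 j = yy l0 ^ 2 := by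
  intro j
  induction j with
  | zero => intro _; rfl
  | succ j ih =>
    intro h
    have h1 : j < 2 ^ l0 := by omega
    simp only [vf]
    rw [ih h1.le]
    unfold inc
    rw [if_pos h1, add_zero]

lemma yy_sq_succ (l : ℕ) : yy (l + 1) ^ 2 ≤ 11 / 10 * yy l ^ 2 := by
  have h1 := yy_succ_le l
  have h2 := yy_pos l
  have h3 := yy_pos (l + 1)
  have h4 : yy (l + 1) ^ 2 ≤ (51 / 50 * yy l) ^ 2 := pow_le_pow_left₀ h3.le h1 2
  nlinarith

/-- the upper bound in a block -/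
lemma vf_up {l0 l : ℕ} (hl : l0 ≤ l) (h0 : vf l0 (2 ^ l) ≤ yy l ^ 2 + 1) :
    ∀ j, 2 ^ l ≤ j → j ≤ 2 ^ (l + 1) → vf l0 j ≤ yy (l + 1) ^ 2 + 1 := by
  intro j hj
  induction j, hj using Nat.le_induction with
  | base =>
    intro _
    have h1 : yy l ^ 2 ≤ yy (l + 1) ^ 2 := pow_le_pow_left₀ (yy_pos l).le (yy_mono (by omega)) 2
    linarith
  | succ j hj ih =>
    intro h
    have ih' := ih (by omega)
    have hmem : j ∈ Finset.Ico (2 ^ l) (2 ^ (l + 1)) := by
      rw [Finset.mem_Ico]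
      omega
    simp only [vf]
    by_cases hlt : vf l0 j < yy (l + 1) ^ 2
    · have h1 := inc_le (l0 := l0) hmem (vf l0 j)
      have h2 : 1 / yy l ^ 48 ≤ 1 := by
        rw [div_le_one (pow_pos (yy_pos l) 48)]
        exact one_le_pow₀ (one_le_yy l)
      linarith
    · have h1 : inc l0 j (vf l0 j) = 0 := by
        unfold inc
        rw [log_of_mem hmem]
        have h2 : 2 ^ l0 ≤ 2 ^ l := Nat.pow_le_pow_right (by norm_num) hl
        rw [if_neg (by omega), if_neg hlt]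
      rw [h1, add_zero]
      exact ih'

/-- the values at the beginning of the blocks -/
lemma vf_start {l0 : ℕ} (h48 : 48 ≤ yy l0) : ∀ l, l0 ≤ l →
    yy l ^ 2 ≤ vf l0 (2 ^ l) ∧ vf l0 (2 ^ l) ≤ yy l ^ 2 + 1 := by
  classical
  intro l hl
  induction l, hl using Nat.le_induction with
  | base =>
    rw [vf_const l0 _ le_rfl]
    exact ⟨le_rfl, by linarith⟩
  | succ l hl ih =>
    have h2l : 2 ^ l ≤ 2 ^ (l + 1) := Nat.pow_le_pow_right (by norm_num) (by omega)
    refine ⟨?_, vf_up hl ih.2 _ h2l le_rfl⟩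
    by_cases hex : ∃ j ∈ Finset.Ico (2 ^ l) (2 ^ (l + 1)), yy (l + 1) ^ 2 ≤ vf l0 j
    · obtain ⟨j, hj, hj2⟩ := hex
      rw [Finset.mem_Ico] at hj
      exact hj2.trans (vf_mono l0 hj.2.le)
    · push Not at hex
      have hy : 48 ≤ yy l := h48.trans (yy_mono hl)
      have hy0 := yy_pos l
      have h2 : 2 ^ l0 ≤ 2 ^ l := Nat.pow_le_pow_right (by norm_num) hl
      have hincv : ∀ j ∈ Finset.Ico (2 ^ l) (2 ^ (l + 1)), vf l0 (j + 1) - vf l0 j =
          if GoodV l (vf l0 j) then 1 / yy l ^ 48 else 1 / yy l ^ 56 := by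
        intro j hj
        simp only [vf]
        rw [add_sub_cancel_left]
        unfold inc
        have hj' := Finset.mem_Ico.1 hj
        rw [log_of_mem hj, if_neg (by omega), if_pos (hex j hj)]
      refine v5_block hy (T := yy (l + 1) ^ 2) ?_ ih.1 hex ?_ ?_
      · have := yy_sq_succ l
        have h3 : 0 < yy l ^ 2 := by positivity
        linarith
      · intro j hj hg
        rw [hincv j hj, if_pos hg]
      · intro j hj
        rw [hincv j hj]
        split_ifs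
        · exact inv56_le l
        · exact le_rfl

theorem v5_all : S_V5 := by
  obtain ⟨L, hL⟩ := yy_large 144
  refine ⟨L, fun l0 hl0 => ⟨vf l0, ?_⟩⟩
  have h48 : 48 ≤ yy l0 := by
    have h1 := hL l0 hl0
    have h2 : (0 : ℝ) ≤ l0 := Nat.cast_nonneg l0
    have h3 : (48 : ℝ) ^ 2 ≤ yy l0 ^ 2 := by nlinarith
    exact (pow_le_pow_iff_left₀ (by norm_num) (yy_pos l0).le (by norm_num)).1 h3
  have hst := vf_start h48
  refine ⟨?_, ?_, ?_, ?_, ?_, ?_⟩
  · intro j hj
    rw [vf_const l0 j hj.le, vf_const l0 (j + 1) (by omega)]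
  · intro j
    exact vf_mono l0 (Nat.le_succ j)
  · intro l hl j hj
    rw [Finset.mem_Ico] at hj
    exact (hst l hl).1.trans (vf_mono l0 hj.1)
  · intro l hl j hj
    rw [Finset.mem_Ico] at hj
    have h1 := vf_up hl (hst l hl).2 j hj.1 hj.2.le
    have h2 := yy_sq_succ l
    have h3 : 48 ≤ yy l := h48.trans (yy_mono hl)
    nlinarith
  · intro l hl j hj
    have h1 := inc_le (l0 := l0) hj (vf l0 j)
    simp only [vf]
    linarith
  · intro l hl j hj hb
    have h1 := inc_bad (l0 := l0) hj hb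
    simp only [vf]
    linarith

end Pool.Agent.J6H27.AD
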