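import Pool.Agent.J6H70.AD.Stm5

/-!
# The scale `yy l = 2 ^ (l / 50)`
-/

set_option autoImplicit false

open Set Filter Topology

namespace Pool.Agent.J6H27.AD

open Pool.Agent.N980.TL Pool.Agent.J6H70.AD

lemma yy_pos (l : ℕ) : 0 < yy l := by
  unfold yy
  positivity

lemma yy_pow (l : ℕ) : yy l ^ 50 = 2 ^ l := by
  unfold yy
  rw [← Real.rpow_natCast, ← Real.rpow_mul (by norm_num), ← Real.rpow_natCast]
  congr 1
  push_cast
  field_simp

lemma one_le_yy (l : ℕ) : 1 ≤ yy l := by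
  unfold yy
  exact Real.one_le_rpow (by norm_num) (by positivity)

lemma yy_mono {l l' : ℕ} (h : l ≤ l') : yy l ≤ yy l' := by
  unfold yy
  apply Real.rpow_le_rpow_of_exponent_le (by norm_num)
  have : (l : ℝ) ≤ l' := by exact_mod_cast h
  linarith

lemma yy_succ_le (l : ℕ) : yy (l + 1) ≤ 51 / 50 * yy l := by
  have h0 := yy_pos l
  have h : yy (l + 1) ^ 50 ≤ (51 / 50 * yy l) ^ 50 := by
    rw [mul_pow, yy_pow, yy_pow, pow_succ]
    have h2 : (2 : ℝ) ≤ (51 / 50) ^ 50 := by norm_num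
    have h3 : (0 : ℝ) < 2 ^ l := by positivity
    nlinarith
  exact (pow_le_pow_iff_left₀ (yy_pos _).le (by positivity) (by norm_num)).1 h

lemma inv_yy_mono (e : ℕ) {l l' : ℕ} (h : l ≤ l') : 1 / yy l' ^ e ≤ 1 / yy l ^ e := by
  apply one_div_le_one_div_of_le (pow_pos (yy_pos l) e)
  exact pow_le_pow_left₀ (yy_pos l).le (yy_mono h) e

lemma log_of_mem {l j : ℕ} (hj : j ∈ Finset.Ico (2 ^ l) (2 ^ (l + 1))) : Nat.log 2 j = l := by
  rw [Finset.mem_Ico] at hj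
  exact Nat.log_eq_of_pow_le_of_lt_pow hj.1 hj.2

/-- the scale is exponential in `l` -/
lemma yy_large (B : ℝ) : ∃ L : ℕ, ∀ l, L ≤ l → B * ((l : ℝ) + 4) ^ 2 < yy l ^ 2 := by
  have hr : (1 : ℝ) < (2 : ℝ) ^ ((1 : ℝ) / 25) := Real.one_lt_rpow (by norm_num) (by norm_num)
  set r : ℝ := (2 : ℝ) ^ ((1 : ℝ) / 25) with hrdef
  have hr0 : 0 < r := by linarith
  have hyr : ∀ l : ℕ, yy l ^ 2 = r ^ l := by
    intro l
    unfold yy
    rw [hrdef, ← Real.rpow_natCast, ← Real.rpow_mul (by norm_num), ← Real.rpow_natCast,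
      ← Real.rpow_mul (by norm_num)]
    congr 1
    push_cast
    ring
  have h1 := (tendsto_pow_const_div_const_pow_of_one_lt 2 hr).comp (tendsto_add_atTop_nat 4)
  have hpos : (0 : ℝ) < 1 / (r ^ 4 * (|B| + 1)) := by positivity
  have h2 := h1.eventually (gt_mem_nhds hpos)
  obtain ⟨L, hL⟩ := eventually_atTop.1 h2
  refine ⟨L, fun l hl => ?_⟩
  have h3 := hL l hl
  simp only [Function.comp] at h3
  rw [div_lt_div_iff₀ (by positivity) (by positivity), one_mul, pow_add] at h3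
  rw [hyr]
  push_cast at h3
  have h4 : B * ((l : ℝ) + 4) ^ 2 ≤ (|B| + 1) * ((l : ℝ) + 4) ^ 2 :=
    mul_le_mul_of_nonneg_right (by linarith [le_abs_self B]) (by positivity)
  have h5 : ((l : ℝ) + 4) ^ 2 * (r ^ 4 * (|B| + 1)) = r ^ 4 * ((|B| + 1) * ((l : ℝ) + 4) ^ 2) := by
    ring
  rw [h5, mul_comm (r ^ l) (r ^ 4)] at h3
  have h6 := lt_of_mul_lt_mul_left h3 (by positivity)
  linarith

end Pool.Agent.J6H27.AD
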